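import Mathlib

/-!
# Free groups are residually finite and Hopfian
-/

set_option autoImplicit false

namespace Pool.MP_59b15d_al.H19S

/-- Free groups are residually finite: the suffixes of a word `w` are permuted by the generators. -/
theorem resid {X : Type*} (w : FreeGroup X) (hw : w ≠ 1) :
    ∃ (S : Finset (FreeGroup X)) (φ : FreeGroup X →* Equiv.Perm ↥S), φ w ≠ 1 := by
  classical
  let L : List (X × Bool) := w.toWord
  have hL : FreeGroup.mk L = w := FreeGroup.mk_toWord
  let S : Finset (FreeGroup X) := (L.tails.map FreeGroup.mk).toFinset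
  have hS : ∀ l : List (X × Bool), l <:+ L → FreeGroup.mk l ∈ S := by
    intro l hl
    rw [List.mem_toFinset, List.mem_map]
    exact ⟨l, (List.mem_tails _ _).mpr hl, rfl⟩
  have h1 : ∀ x : X, ∃ g : ↥S ≃ ↥S, ∀ i : ↥S, FreeGroup.of x * (i : FreeGroup X) ∈ S →
      ((g i : ↥S) : FreeGroup X) = FreeGroup.of x * (i : FreeGroup X) := by
    intro x
    have h2 := Set.MapsTo.exists_equiv_extend_of_card_eq (α := ↥S) (β := FreeGroup X) (t := S)
      (Fintype.card_coe S) (s := {i : ↥S | FreeGroup.of x * (i : FreeGroup X) ∈ S})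
      (f := fun i => FreeGroup.of x * (i : FreeGroup X)) (fun i hi => hi)
      (fun i _ j _ hij => Subtype.ext (mul_left_cancel hij))
    obtain ⟨g, hg⟩ := h2
    exact ⟨g, fun i hi => hg i hi⟩
  choose g hg using h1
  let φ : FreeGroup X →* Equiv.Perm ↥S := FreeGroup.lift g
  have h0 : (1 : FreeGroup X) ∈ S := by
    have h2 := hS [] (List.nil_suffix)
    rwa [← FreeGroup.one_eq_mk] at h2
  have key : ∀ l : List (X × Bool), l <:+ L →
      ((φ (FreeGroup.mk l) ⟨1, h0⟩ : ↥S) : FreeGroup X) = FreeGroup.mk l := by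
    intro l
    induction l with
    | nil =>
      intro _
      rw [← FreeGroup.one_eq_mk, map_one]
      rfl
    | cons a l ih =>
      intro hl
      have hl' : l <:+ L := (List.suffix_cons a l).trans hl
      have h3 := ih hl'
      obtain ⟨x, b⟩ := a
      have h4 : φ (FreeGroup.mk l) ⟨1, h0⟩ = ⟨FreeGroup.mk l, hS l hl'⟩ := Subtype.ext h3
      cases b with
      | true =>
        have h5 : FreeGroup.mk ((x, true) :: l) = FreeGroup.of x * FreeGroup.mk l := by
          rw [FreeGroup.of, FreeGroup.mul_mk]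
          rfl
        have h6 : FreeGroup.of x * FreeGroup.mk l ∈ S := h5 ▸ hS _ hl
        rw [h5, map_mul, Equiv.Perm.mul_apply, h4]
        have h7 : φ (FreeGroup.of x) = g x := FreeGroup.lift_apply_of
        rw [h7]
        exact hg x ⟨FreeGroup.mk l, hS l hl'⟩ h6
      | false =>
        have h5 : FreeGroup.of x * FreeGroup.mk ((x, false) :: l) = FreeGroup.mk l := by
          have h8 : FreeGroup.mk ((x, false) :: l) = (FreeGroup.of x)⁻¹ * FreeGroup.mk l := by
            rw [FreeGroup.of, FreeGroup.inv_mk, FreeGroup.mul_mk]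
            rfl
          rw [h8, mul_inv_cancel_left]
        have h9 : FreeGroup.mk ((x, false) :: l) = (FreeGroup.of x)⁻¹ * FreeGroup.mk l := by
          rw [← h5, inv_mul_cancel_left]
        have h6 : FreeGroup.of x * FreeGroup.mk ((x, false) :: l) ∈ S := h5 ▸ hS l hl'
        have h10 := hg x ⟨FreeGroup.mk ((x, false) :: l), hS _ hl⟩ h6
        have h11 : g x ⟨FreeGroup.mk ((x, false) :: l), hS _ hl⟩ = ⟨FreeGroup.mk l, hS l hl'⟩ :=
          Subtype.ext (h10.trans h5)
        have h7 : φ (FreeGroup.of x) = g x := FreeGroup.lift_apply_of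
        have h12 : φ (FreeGroup.mk ((x, false) :: l)) ⟨1, h0⟩ =
            (g x)⁻¹ ⟨FreeGroup.mk l, hS l hl'⟩ := by
          rw [h9, map_mul, map_inv, h7, Equiv.Perm.mul_apply, h4]
        rw [h12, ← h11, Equiv.Perm.inv_def, Equiv.symm_apply_apply]
  refine ⟨S, φ, fun h => hw ?_⟩
  have h13 := key L List.suffix_rfl
  rw [hL, h] at h13
  exact h13.symm

/-- Free groups of finite rank are Hopfian. -/
theorem hopf {X Y : Type*} [Finite X] [Finite Y] (h : Nat.card X = Nat.card Y)
    (f : FreeGroup X →* FreeGroup Y) (hf : Function.Surjective f) : Function.Injective f := by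
  classical
  rw [injective_iff_map_eq_one]
  intro z hz
  by_contra hz1
  obtain ⟨S, φ, hφ⟩ := resid z hz1
  let Q := Equiv.Perm ↥S
  have : Finite Q := inferInstance
  have : Finite (FreeGroup X →* Q) := Finite.of_equiv _ (FreeGroup.lift (α := X) (β := Q))
  have : Finite (FreeGroup Y →* Q) := Finite.of_equiv _ (FreeGroup.lift (α := Y) (β := Q))
  let r : (FreeGroup Y →* Q) → (FreeGroup X →* Q) := fun ψ => ψ.comp f
  have hr : Function.Injective r := by
    intro ψ ψ' hψ
    ext1 y
    obtain ⟨x, hx⟩ := hf (FreeGroup.of y)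
    have h1 := DFunLike.congr_fun hψ x
    change ψ (f x) = ψ' (f x) at h1
    rwa [hx] at h1
  have hc : Nat.card (FreeGroup X →* Q) ≤ Nat.card (FreeGroup Y →* Q) := by
    rw [← Nat.card_congr (FreeGroup.lift (α := X) (β := Q)),
      ← Nat.card_congr (FreeGroup.lift (α := Y) (β := Q)), Nat.card_fun, Nat.card_fun, h]
  have hb : Function.Bijective r := hr.bijective_of_nat_card_le hc
  obtain ⟨ψ, hψ⟩ := hb.2 φ
  apply hφ
  rw [← hψ]
  change ψ (f z) = 1
  rw [hz, map_one]

end Pool.MP_59b15d_al.H19S
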