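import Mathlib
import Pool.Agent.H.MP_59b15d_al.sym.Defs

/-!
# The closed surface group, from the surface with boundary
-/

set_option autoImplicit false

namespace Pool.MP_59b15d_al.H19S

open Pool.MP_59b15d_al.Sym

/-- The boundary word of a closed surface of genus `p`. -/
def wP (p : ℕ) : FreeGroup (Fin p ⊕ Fin p) :=
  (List.ofFn (fun i : Fin p =>
    FreeGroup.of (Sum.inl i : Fin p ⊕ Fin p) *
    FreeGroup.of (Sum.inr i : Fin p ⊕ Fin p) *
    (FreeGroup.of (Sum.inl i : Fin p ⊕ Fin p))⁻¹ *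
    (FreeGroup.of (Sum.inr i : Fin p ⊕ Fin p))⁻¹)).prod

/-- The inclusion of the handle generators. -/
def iG (p s : ℕ) : FreeGroup (Fin p ⊕ Fin p) →* Gg p s :=
  FreeGroup.lift fun x => FreeGroup.of (Sum.inl x)

/-- The retraction killing the boundary generators. -/
def rG (p s : ℕ) : Gg p s →* FreeGroup (Fin p ⊕ Fin p) :=
  FreeGroup.lift (Sum.elim (fun x => FreeGroup.of x) fun _ => 1)

theorem iG_of (p s : ℕ) (x : Fin p ⊕ Fin p) : iG p s (FreeGroup.of x) = FreeGroup.of (Sum.inl x) :=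
  FreeGroup.lift_apply_of

theorem rG_inl (p s : ℕ) (x : Fin p ⊕ Fin p) :
    rG p s (FreeGroup.of (Sum.inl x)) = FreeGroup.of x := by
  rw [rG, FreeGroup.lift_apply_of]
  rfl

theorem rG_inr (p s : ℕ) (i : Fin s) : rG p s (FreeGroup.of (Sum.inr i)) = 1 := by
  rw [rG, FreeGroup.lift_apply_of]
  rfl

theorem rG_iG (p s : ℕ) (w : FreeGroup (Fin p ⊕ Fin p)) : rG p s (iG p s w) = w := by
  have h : (rG p s).comp (iG p s) = MonoidHom.id _ := by
    ext x
    rw [MonoidHom.comp_apply, iG_of, rG_inl]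
    rfl
  exact DFunLike.congr_fun h w

theorem iG_wP (p s : ℕ) : iG p s (wP p) = (List.ofFn fun i : Fin p =>
      FreeGroup.of (Sum.inl (Sum.inl i) : (Fin p ⊕ Fin p) ⊕ Fin s) *
      FreeGroup.of (Sum.inl (Sum.inr i) : (Fin p ⊕ Fin p) ⊕ Fin s) *
      (FreeGroup.of (Sum.inl (Sum.inl i) : (Fin p ⊕ Fin p) ⊕ Fin s))⁻¹ *
      (FreeGroup.of (Sum.inl (Sum.inr i) : (Fin p ⊕ Fin p) ⊕ Fin s))⁻¹).prod := by
  rw [wP, map_list_prod, List.map_ofFn]
  simp only [Function.comp_def, map_mul, map_inv, iG_of]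

theorem cW_eq (p s : ℕ) : cW p s = iG p s (wP p) *
    (List.ofFn fun i : Fin s =>
      FreeGroup.of (Sum.inr i : (Fin p ⊕ Fin p) ⊕ Fin s)).prod := by
  rw [iG_wP, cW]

theorem rG_cW (p s : ℕ) : rG p s (cW p s) = wP p := by
  rw [cW_eq, map_mul, rG_iG, map_list_prod]
  have h : ∀ x ∈ List.map (rG p s) (List.ofFn fun i : Fin s =>
      FreeGroup.of (Sum.inr i : (Fin p ⊕ Fin p) ⊕ Fin s)), x = 1 := by
    intro x hx
    rw [List.mem_map] at hx
    obtain ⟨y, hy, rfl⟩ := hx
    rw [List.mem_ofFn] at hy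
    obtain ⟨i, rfl⟩ := hy
    exact rG_inr p s i
  rw [List.prod_eq_one h, mul_one]

/-- The killed elements. -/
def kS (p s : ℕ) : Set (Gg p s) :=
  {cW p s} ∪ Set.range fun i : Fin s => FreeGroup.of (Sum.inr i)

/-- A quotient of the group of the surface with boundary by the boundary curves is a closed surface
group. -/
theorem stdGen_of {p s : ℕ} {G : Type*} [Group G] (r : Gg p s →* G)
    (hr : Function.Surjective r) (hk : ∀ y, r y = 1 ↔ y ∈ Subgroup.normalClosure (kS p s)) :
    Pool.MP_59b15d_al.H76.StdGen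
      (fun i : Fin p => r (FreeGroup.of (Sum.inl (Sum.inl i))))
      (fun i : Fin p => r (FreeGroup.of (Sum.inl (Sum.inr i)))) := by
  have hd : ∀ i : Fin s, r (FreeGroup.of (Sum.inr i)) = 1 := fun i =>
    (hk _).mpr (Subgroup.subset_normalClosure (Or.inr ⟨i, rfl⟩))
  have hc : r (cW p s) = 1 := (hk _).mpr (Subgroup.subset_normalClosure (Or.inl rfl))
  have h1 : ∀ y, r (iG p s (rG p s y)) = r y := by
    have h : (r.comp ((iG p s).comp (rG p s))) = r := by
      ext x
      rcases x with x | i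
      · rw [MonoidHom.comp_apply, MonoidHom.comp_apply, rG_inl, iG_of]
      · rw [MonoidHom.comp_apply, MonoidHom.comp_apply, rG_inr, map_one, map_one, hd]
    exact fun y => DFunLike.congr_fun h y
  let θ : FreeGroup (Fin p ⊕ Fin p) →* G := r.comp (iG p s)
  have hθ : Function.Surjective θ := by
    intro g
    obtain ⟨y, rfl⟩ := hr g
    exact ⟨rG p s y, h1 y⟩
  have hker : Subgroup.normalClosure ({wP p} : Set (FreeGroup (Fin p ⊕ Fin p))) = θ.ker := by
    apply le_antisymm
    · apply Subgroup.normalClosure_le_normal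
      rintro _ rfl
      rw [SetLike.mem_coe, MonoidHom.mem_ker]
      change r (iG p s (wP p)) = 1
      rw [← rG_cW p s, h1, hc]
    · intro w hw
      rw [MonoidHom.mem_ker] at hw
      have h2 : iG p s w ∈ Subgroup.normalClosure (kS p s) := (hk _).mp hw
      have h3 : Subgroup.normalClosure (kS p s) ≤
          (Subgroup.normalClosure ({wP p} : Set (FreeGroup (Fin p ⊕ Fin p)))).comap (rG p s) := by
        apply Subgroup.normalClosure_le_normal
        rintro _ (rfl | ⟨i, rfl⟩)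
        · rw [SetLike.mem_coe, Subgroup.mem_comap, rG_cW]
          exact Subgroup.subset_normalClosure rfl
        · rw [SetLike.mem_coe, Subgroup.mem_comap]
          change rG p s (FreeGroup.of (Sum.inr i)) ∈ _
          rw [rG_inr]
          exact Subgroup.one_mem _
      have h4 := h3 h2
      rwa [Subgroup.mem_comap, rG_iG] at h4
  let e : PresentedGroup ({wP p} : Set (FreeGroup (Fin p ⊕ Fin p))) ≃* G :=
    (QuotientGroup.quotientMulEquivOfEq hker).trans
      (QuotientGroup.quotientKerEquivOfSurjective θ hθ)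
  have he : ∀ x, e (PresentedGroup.of x) = r (FreeGroup.of (Sum.inl x)) := by
    intro x
    have h5 : e (PresentedGroup.of x) = θ (FreeGroup.of x) := rfl
    rw [h5]
    change r (iG p s (FreeGroup.of x)) = _
    rw [iG_of]
  exact ⟨e, fun i => ⟨he _, he _⟩⟩

variable {N : ℕ}

/-- Representatives of the faces. -/
theorem faces (K : Subgroup (FF N)) (hK : K.Normal) (hKf : K.FiniteIndex) :
    ∃ (g₀ : FF N) (s : ℕ) (g : Fin s → FF N),
      (∀ z : FF N, (∃ a : ℤ, z * xn N ^ a * g₀⁻¹ ∈ K) ∨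
        ∃ i, ∃ a : ℤ, z * xn N ^ a * (g i)⁻¹ ∈ K) ∧
      (∀ i, ∀ a : ℤ, g i * xn N ^ a * g₀⁻¹ ∉ K) ∧
      (∀ i j, i ≠ j → ∀ a : ℤ, g i * xn N ^ a * (g j)⁻¹ ∉ K) := by
  classical
  let S : Setoid (FF N) :=
    { r := fun z w => ∃ a : ℤ, z * xn N ^ a * w⁻¹ ∈ K
      iseqv :=
        { refl := fun z => ⟨0, by simp⟩
          symm := by
            rintro z w ⟨a, ha⟩
            refine ⟨-a, ?_⟩
            have h1 := K.inv_mem ha
            have h2 : (z * xn N ^ a * w⁻¹)⁻¹ = w * xn N ^ (-a) * z⁻¹ := by group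
            rwa [h2] at h1
          trans := by
            rintro z w v ⟨a, ha⟩ ⟨b, hb⟩
            refine ⟨a + b, ?_⟩
            have h1 : z * xn N ^ (a + b) * v⁻¹ =
                (z * xn N ^ a * w⁻¹) * (w * xn N ^ b * v⁻¹) := by
              rw [zpow_add]
              group
            rw [h1]
            exact K.mul_mem ha hb } }
  have hfin : Finite (Quotient S) := by
    have h1 : Finite (FF N ⧸ K) := Subgroup.finite_quotient_of_finiteIndex
    let f : FF N ⧸ K → Quotient S := fun x => Quotient.mk S (Quotient.out x)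
    apply Finite.of_surjective f
    intro y
    obtain ⟨z, rfl⟩ := Quotient.exists_rep y
    refine ⟨QuotientGroup.mk z, Quotient.sound ?_⟩
    refine ⟨0, ?_⟩
    have h2 : ((Quotient.out (QuotientGroup.mk z : FF N ⧸ K) : FF N) : FF N ⧸ K) =
        (QuotientGroup.mk z : FF N ⧸ K) := Quotient.out_eq' _
    have h3 := QuotientGroup.eq.mp h2
    have h4 := hK.conj_mem _ (K.inv_mem h3) (Quotient.out (QuotientGroup.mk z : FF N ⧸ K) : FF N)
    rw [zpow_zero, mul_one]
    have h5 : ∀ u v : FF N, u * (u⁻¹ * v)⁻¹ * u⁻¹ = u * v⁻¹ := by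
      intro u v
      group
    rwa [h5] at h4
  let c₀ : Quotient S := Quotient.mk S 1
  have hfin' : Finite {c : Quotient S // c ≠ c₀} := inferInstance
  obtain ⟨s, ⟨e⟩⟩ := Finite.exists_equiv_fin {c : Quotient S // c ≠ c₀}
  have hout : ∀ c : Quotient S, Quotient.mk S c.out = c := fun c => Quotient.out_eq c
  refine ⟨1, s, fun i => (e.symm i).1.out, ?_, ?_, ?_⟩
  · intro z
    by_cases hz : Quotient.mk S z = c₀
    · left
      exact Quotient.exact hz
    · right
      refine ⟨e ⟨Quotient.mk S z, hz⟩, ?_⟩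
      change ∃ a : ℤ, z * xn N ^ a * ((e.symm (e ⟨Quotient.mk S z, hz⟩)).1.out)⁻¹ ∈ K
      rw [Equiv.symm_apply_apply]
      exact Quotient.exact (hout _).symm
  · intro i a ha
    apply (e.symm i).2
    rw [← hout (e.symm i).1]
    exact Quotient.sound ⟨a, ha⟩
  · intro i j hij a ha
    apply hij
    apply e.symm.injective
    apply Subtype.ext
    rw [← hout (e.symm i).1, ← hout (e.symm j).1]
    exact Quotient.sound ⟨a, ha⟩

/-- (MF, closed), from the description of the surface with boundary. -/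
theorem mf_closed_of (e : Fin N → ℕ) (K : Subgroup (FF N))
    (hK : K.Normal) (hKf : K.FiniteIndex) (h1 : ∀ j, FreeGroup.of j ^ e j ∈ K) (m : ℕ)
    (h2 : xn N ^ m ∈ K)
    (hfull : ∀ (g₀ : FF N) (s : ℕ) (g : Fin s → FF N),
      (∀ z : FF N, (∃ a : ℤ, z * xn N ^ a * g₀⁻¹ ∈ K) ∨
        ∃ i, ∃ a : ℤ, z * xn N ^ a * (g i)⁻¹ ∈ K) →
      (∀ i, ∀ a : ℤ, g i * xn N ^ a * g₀⁻¹ ∉ K) →
      (∀ i j, i ≠ j → ∀ a : ℤ, g i * xn N ^ a * (g j)⁻¹ ∉ K) →
      ∃ (p : ℕ) (J : ↥K →* Gg p s), Function.Surjective J ∧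
        (∀ z : ↥K, J z = 1 ↔ (z : FF N) ∈ Rel' e) ∧
        (∀ z : ↥K, (z : FF N) = g₀ * xn N ^ m * g₀⁻¹ → J z = (cW p s)⁻¹) ∧
        (∀ (i : Fin s) (z : ↥K), (z : FF N) = g i * xn N ^ m * (g i)⁻¹ →
          ∃ w : Gg p s, J z = w * FreeGroup.of (Sum.inr i) * w⁻¹) ∧
        (2 * p - 2 : ℚ) = K.index * (N - 1 - ∑ j, (1 / e j : ℚ) - 1 / m))
    {G : Type*} [Group G] (q : ↥K →* G)
    (hq : Function.Surjective q)
    (hk : ∀ z : ↥K, q z = 1 ↔ (z : FF N) ∈ Rel (Fin.lastCases m e : Fin (N + 1) → ℕ)) :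
    ∃ (p : ℕ) (a b : Fin p → G), Pool.MP_59b15d_al.H76.StdGen a b ∧
      (2 * p - 2 : ℚ) = K.index * (N - 1 - ∑ j, (1 / e j : ℚ) - 1 / m) := by
  obtain ⟨E, hE⟩ : ∃ E : Fin (N + 1) → ℕ, E = (Fin.lastCases m e : Fin (N + 1) → ℕ) := ⟨_, rfl⟩
  have hEc : ∀ j : Fin N, E j.castSucc = e j := by
    intro j
    rw [hE]
    exact Fin.lastCases_castSucc j
  have hEl : E (Fin.last N) = m := by
    rw [hE]
    exact Fin.lastCases_last
  rw [← hE] at hk
  obtain ⟨g₀, s, g, hg, hg₀, hgg⟩ := faces K hK hKf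
  obtain ⟨p, J, hJ, hJ1, hJ0, hJi, hp⟩ := hfull g₀ s g hg hg₀ hgg
  have hRn : (Rel E).Normal := Subgroup.normalClosure_normal
  have hRj : ∀ j : Fin N, FreeGroup.of j ^ e j ∈ Rel E := by
    intro j
    refine Subgroup.subset_normalClosure ⟨j.castSucc, ?_⟩
    change per j.castSucc ^ E j.castSucc = _
    rw [per_castSucc, hEc]
  have hRn' : xn N ^ m ∈ Rel E := by
    refine Subgroup.subset_normalClosure ⟨Fin.last N, ?_⟩
    change per (Fin.last N) ^ E (Fin.last N) = _
    rw [per_last, hEl]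
  have hR' : Rel' e ≤ Rel E := by
    apply Subgroup.normalClosure_le_normal
    rintro _ ⟨j, rfl⟩
    exact hRj j
  have hRK : Rel' e ≤ K := by
    apply Subgroup.normalClosure_le_normal
    rintro _ ⟨j, rfl⟩
    exact h1 j
  have hNC : (Subgroup.normalClosure (kS p s)).Normal := Subgroup.normalClosure_normal
  -- a face, seen in `Gg p s`
  have face : ∀ (h u : FF N) (a : ℤ) (hu : h * xn N ^ a * u⁻¹ ∈ K) (y : FF N)
      (hy : y = h * xn N ^ m * h⁻¹),
      (∀ z : ↥K, (z : FF N) = u * xn N ^ m * u⁻¹ → J z ∈ Subgroup.normalClosure (kS p s)) →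
      y ∈ ((Subgroup.normalClosure (kS p s)).comap J).map K.subtype := by
    rintro h u a hu _ rfl hz
    have h3 : u * xn N ^ m * u⁻¹ ∈ K := hK.conj_mem _ h2 u
    have h4 := hz ⟨_, h3⟩ rfl
    refine ⟨(⟨_, hu⟩ : ↥K) * (⟨_, h3⟩ : ↥K) * (⟨_, hu⟩ : ↥K)⁻¹, ?_, ?_⟩
    · rw [SetLike.mem_coe, Subgroup.mem_comap, map_mul, map_mul, map_inv]
      exact hNC.conj_mem _ h4 _
    · rw [Subgroup.coe_subtype]
      push_cast
      have h5 : xn N ^ a * xn N ^ m = xn N ^ m * xn N ^ a := by
        rw [← zpow_natCast, ← zpow_add, ← zpow_add, add_comm]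
      have h6 : ∀ u h c d : FF N, c * d = d * c →
          h * c * u⁻¹ * (u * d * u⁻¹) * (h * c * u⁻¹)⁻¹ = h * d * h⁻¹ := by
        intro u h c d hcd
        have h7 : h * c * u⁻¹ * (u * d * u⁻¹) * (h * c * u⁻¹)⁻¹ = h * (c * d) * c⁻¹ * h⁻¹ := by
          group
        rw [h7, hcd]
        group
      exact h6 u h _ _ h5
  -- the kernel of `q`, seen in `Gg p s`
  have key : ∀ z : ↥K, (z : FF N) ∈ Rel E ↔ J z ∈ Subgroup.normalClosure (kS p s) := by
    intro z
    constructor
    · intro hz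
      have hsub : Rel E ≤ ((Subgroup.normalClosure (kS p s)).comap J).map K.subtype := by
        change Subgroup.closure (Group.conjugatesOfSet _) ≤ _
        rw [Subgroup.closure_le]
        intro y hy
        rw [Group.mem_conjugatesOfSet_iff] at hy
        obtain ⟨x, ⟨j, rfl⟩, hy⟩ := hy
        rw [isConj_iff] at hy
        obtain ⟨h, rfl⟩ := hy
        rw [SetLike.mem_coe]
        induction j using Fin.lastCases with
        | cast j =>
          have e1 : h * per j.castSucc ^ E j.castSucc * h⁻¹ ∈ Rel' e := by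
            rw [per_castSucc, hEc]
            have e0 : FreeGroup.of j ^ e j ∈ Rel' e := Subgroup.subset_normalClosure ⟨j, rfl⟩
            have e2 : (Rel' e).Normal := Subgroup.normalClosure_normal
            exact e2.conj_mem _ e0 h
          refine ⟨(⟨_, hRK e1⟩ : ↥K), ?_, rfl⟩
          rw [SetLike.mem_coe, Subgroup.mem_comap, (hJ1 _).mpr e1]
          exact Subgroup.one_mem _
        | last =>
          rcases hg h with ⟨a, ha⟩ | ⟨i, a, ha⟩
          · refine face h g₀ a ha _ ?_ ?_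
            · change h * per (Fin.last N) ^ E (Fin.last N) * h⁻¹ = _
              rw [per_last, hEl]
            · intro z hz
              rw [hJ0 z hz]
              have h8 : cW p s ∈ Subgroup.normalClosure (kS p s) :=
                Subgroup.subset_normalClosure (Or.inl rfl)
              exact Subgroup.inv_mem _ h8
          · refine face h (g i) a ha _ ?_ ?_
            · change h * per (Fin.last N) ^ E (Fin.last N) * h⁻¹ = _
              rw [per_last, hEl]
            · intro z hz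
              obtain ⟨w, hw⟩ := hJi i z hz
              rw [hw]
              have h8 : (FreeGroup.of (Sum.inr i) : Gg p s) ∈ Subgroup.normalClosure (kS p s) :=
                Subgroup.subset_normalClosure (Or.inr ⟨i, rfl⟩)
              exact hNC.conj_mem _ h8 w
      obtain ⟨z', hz', hzz⟩ := hsub hz
      have hzz' : z' = z := Subtype.ext hzz
      subst hzz'
      exact hz'
    · intro hz
      have hsub : Subgroup.normalClosure (kS p s) ≤ ((Rel E).subgroupOf K).map J := by
        have hn : (((Rel E).subgroupOf K).map J).Normal :=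
          Subgroup.Normal.map inferInstance J hJ
        apply Subgroup.normalClosure_le_normal
        rintro _ (rfl | ⟨i, rfl⟩)
        · have h3 : g₀ * xn N ^ m * g₀⁻¹ ∈ K := hK.conj_mem _ h2 g₀
          have h4 := hJ0 ⟨_, h3⟩ rfl
          have h5 : J ⟨_, h3⟩ ∈ ((Rel E).subgroupOf K).map J := by
            refine ⟨⟨_, h3⟩, ?_, rfl⟩
            rw [SetLike.mem_coe, Subgroup.mem_subgroupOf]
            exact hRn.conj_mem _ hRn' g₀
          rw [SetLike.mem_coe, ← inv_inv (cW p s), ← h4]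
          exact Subgroup.inv_mem _ h5
        · have h3 : g i * xn N ^ m * (g i)⁻¹ ∈ K := hK.conj_mem _ h2 (g i)
          obtain ⟨w, hw⟩ := hJi i ⟨_, h3⟩ rfl
          have h5 : w * FreeGroup.of (Sum.inr i) * w⁻¹ ∈ ((Rel E).subgroupOf K).map J := by
            rw [← hw]
            refine ⟨⟨_, h3⟩, ?_, rfl⟩
            rw [SetLike.mem_coe, Subgroup.mem_subgroupOf]
            exact hRn.conj_mem _ hRn' (g i)
          have h6 := hn.conj_mem _ h5 w⁻¹
          have h7 : w⁻¹ * (w * FreeGroup.of (Sum.inr i) * w⁻¹) * w⁻¹⁻¹ =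
              FreeGroup.of (Sum.inr i) := by group
          rw [h7] at h6
          exact h6
      obtain ⟨z', hz', hzz⟩ := hsub hz
      rw [SetLike.mem_coe, Subgroup.mem_subgroupOf] at hz'
      have h8 : J (z * z'⁻¹) = 1 := by rw [map_mul, map_inv, hzz, mul_inv_cancel]
      have h9 := hR' ((hJ1 _).mp h8)
      have h10 : (z : FF N) = ((z * z'⁻¹ : ↥K) : FF N) * (z' : FF N) := by
        rw [← Subgroup.coe_mul, inv_mul_cancel_right]
      rw [h10]
      exact Subgroup.mul_mem _ h9 hz'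
  have hle : J.ker ≤ q.ker := by
    intro z hz
    rw [MonoidHom.mem_ker] at hz ⊢
    exact (hk z).mpr (hR' ((hJ1 z).mp hz))
  let r : Gg p s →* G :=
    (QuotientGroup.lift J.ker q hle).comp
      (QuotientGroup.quotientKerEquivOfSurjective J hJ).symm.toMonoidHom
  have hr : ∀ z, r (J z) = q z := by
    intro z
    have h3 : (QuotientGroup.quotientKerEquivOfSurjective J hJ).symm (J z) =
        (QuotientGroup.mk z : ↥K ⧸ J.ker) := by
      rw [MulEquiv.symm_apply_eq]
      rfl
    change (QuotientGroup.lift J.ker q hle)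
      ((QuotientGroup.quotientKerEquivOfSurjective J hJ).symm (J z)) = q z
    rw [h3]
    rfl
  refine ⟨p, _, _, stdGen_of r ?_ ?_, hp⟩
  · intro y
    obtain ⟨z, rfl⟩ := hq y
    exact ⟨J z, hr z⟩
  · intro y
    obtain ⟨z, rfl⟩ := hJ y
    rw [hr, hk, key]

end Pool.MP_59b15d_al.H19S
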