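import Pool.Agent.H.MP_59b15d_al.h95.Fd1

/-!
# Reordering a product of steps without changing its value
-/

set_option autoImplicit false

namespace Pool.MP_59b15d_al.H19S

open Pool.MP_59b15d_al.H95

/-- The letters of a product can be put in any order, after conjugating the steps. -/
theorem perm_vl {I F : Type*} [DecidableEq I] [Group F] {Z Z' : List I} (h : Z.Perm Z')
    (nd : Z.Nodup) (ε : I → F) : ∃ ε' : I → F, vl ε' Z' = vl ε Z ∧
      (∀ z, ∃ g, ε' z = g * ε z * g⁻¹) ∧
      Subgroup.closure (ε' '' {i | i ∈ Z'}) = Subgroup.closure (ε '' {i | i ∈ Z}) := by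
  induction h generalizing ε with
  | nil => exact ⟨ε, rfl, fun z => ⟨1, by simp⟩, rfl⟩
  | cons x hl ih =>
    rename_i l l'
    rw [List.nodup_cons] at nd
    obtain ⟨δ, h1, h2, h3⟩ := ih nd.2 ε
    have hx : x ∉ l' := fun hx => nd.1 (hl.mem_iff.mpr hx)
    have hne : ∀ j ∈ l', Function.update δ x (ε x) j = δ j := by
      intro j hj
      rw [Function.update_of_ne]
      rintro rfl
      exact hx hj
    refine ⟨Function.update δ x (ε x), ?_, ?_, ?_⟩
    · rw [vl_cons, vl_cons, Function.update_self, vl_congr hne, h1]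
    · intro z
      by_cases hz : z = x
      · subst hz
        exact ⟨1, by rw [Function.update_self]; simp⟩
      · rw [Function.update_of_ne hz]
        exact h2 z
    · have e1 : (Function.update δ x (ε x)) '' {i | i ∈ x :: l'} = {ε x} ∪ δ '' {i | i ∈ l'} := by
        ext y
        simp only [Set.mem_image, Set.mem_ofPred_eq, List.mem_cons, Set.mem_union,
          Set.mem_singleton_iff]
        constructor
        · rintro ⟨i, rfl | hi, rfl⟩
          · left
            rw [Function.update_self]
          · right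
            exact ⟨i, hi, (hne i hi).symm⟩
        · rintro (rfl | ⟨i, hi, rfl⟩)
          · exact ⟨x, Or.inl rfl, by rw [Function.update_self]⟩
          · exact ⟨i, Or.inr hi, hne i hi⟩
      have e2 : ε '' {i | i ∈ x :: l} = {ε x} ∪ ε '' {i | i ∈ l} := by
        ext y
        simp only [Set.mem_image, Set.mem_ofPred_eq, List.mem_cons, Set.mem_union,
          Set.mem_singleton_iff]
        constructor
        · rintro ⟨i, rfl | hi, rfl⟩
          · left
            rfl
          · right
            exact ⟨i, hi, rfl⟩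
        · rintro (rfl | ⟨i, hi, rfl⟩)
          · exact ⟨x, Or.inl rfl, rfl⟩
          · exact ⟨i, Or.inr hi, rfl⟩
      rw [e1, e2, Subgroup.closure_union, Subgroup.closure_union, h3]
  | swap x y l =>
    rw [List.nodup_cons, List.nodup_cons] at nd
    have hyx : y ≠ x := fun hh => nd.1 (hh ▸ List.mem_cons_self)
    have hxl : x ∉ l := nd.2.1
    have hne : ∀ j ∈ l, Function.update ε x (ε y * ε x * (ε y)⁻¹) j = ε j := by
      intro j hj
      rw [Function.update_of_ne]
      rintro rfl
      exact hxl hj
    have hy : Function.update ε x (ε y * ε x * (ε y)⁻¹) y = ε y := by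
      rw [Function.update_of_ne hyx]
    refine ⟨Function.update ε x (ε y * ε x * (ε y)⁻¹), ?_, ?_, ?_⟩
    · rw [vl_cons, vl_cons, vl_cons, vl_cons, Function.update_self, hy, vl_congr hne]
      group
    · intro z
      by_cases hz : z = x
      · subst hz
        exact ⟨ε y, by rw [Function.update_self]⟩
      · rw [Function.update_of_ne hz]
        exact ⟨1, by simp⟩
    · have m1 : ε y ∈ Subgroup.closure
          ((Function.update ε x (ε y * ε x * (ε y)⁻¹)) '' {i | i ∈ x :: y :: l}) :=
        Subgroup.subset_closure ⟨y, List.mem_cons_of_mem _ List.mem_cons_self, hy⟩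
      have m2 : ε y * ε x * (ε y)⁻¹ ∈ Subgroup.closure
          ((Function.update ε x (ε y * ε x * (ε y)⁻¹)) '' {i | i ∈ x :: y :: l}) :=
        Subgroup.subset_closure ⟨x, List.mem_cons_self, by rw [Function.update_self]⟩
      have m3 : ε y ∈ Subgroup.closure (ε '' {i | i ∈ y :: x :: l}) :=
        Subgroup.subset_closure ⟨y, List.mem_cons_self, rfl⟩
      have m4 : ε x ∈ Subgroup.closure (ε '' {i | i ∈ y :: x :: l}) :=
        Subgroup.subset_closure ⟨x, List.mem_cons_of_mem _ List.mem_cons_self, rfl⟩
      apply le_antisymm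
      · rw [Subgroup.closure_le]
        rintro _ ⟨i, hi, rfl⟩
        rcases List.mem_cons.mp hi with rfl | hi
        · rw [Function.update_self]
          exact Subgroup.mul_mem _ (Subgroup.mul_mem _ m3 m4) (Subgroup.inv_mem _ m3)
        rcases List.mem_cons.mp hi with rfl | hi
        · rw [hy]
          exact m3
        · rw [hne i hi]
          exact Subgroup.subset_closure ⟨i, List.mem_cons_of_mem _ (List.mem_cons_of_mem _ hi), rfl⟩
      · rw [Subgroup.closure_le]
        rintro _ ⟨i, hi, rfl⟩
        rcases List.mem_cons.mp hi with rfl | hi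
        · exact m1
        rcases List.mem_cons.mp hi with rfl | hi
        · have h5 := Subgroup.mul_mem _ (Subgroup.mul_mem _ (Subgroup.inv_mem _ m1) m2) m1
          have h6 : (ε y)⁻¹ * (ε y * ε i * (ε y)⁻¹) * ε y = ε i := by group
          rwa [h6] at h5
        · exact Subgroup.subset_closure
            ⟨i, List.mem_cons_of_mem _ (List.mem_cons_of_mem _ hi), hne i hi⟩
  | trans h1 h2 ih1 ih2 =>
    obtain ⟨δ, a1, a2, a3⟩ := ih1 nd ε
    obtain ⟨δ', b1, b2, b3⟩ := ih2 (h1.nodup_iff.mp nd) δ
    refine ⟨δ', b1.trans a1, fun z => ?_, b3.trans a3⟩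
    obtain ⟨g, hg⟩ := a2 z
    obtain ⟨g', hg'⟩ := b2 z
    refine ⟨g' * g, ?_⟩
    rw [hg', hg]
    group

end Pool.MP_59b15d_al.H19S
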